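import Pool.Agent.H.MP_4002ad_an.A

set_option autoImplicit false

namespace Pool.Agent.H.MP_bef260_an
open scoped ENNReal Topology
open MeasureTheory Set Real FourierTransform Filter Pool.Agent.H.MP_4002ad_an

noncomputable def b (i : ℤ) : ℝ := ((1 + |(i : ℝ)|) ^ 2)⁻¹

theorem b_pos (i : ℤ) : 0 < b i := by unfold b; positivity

theorem sb : Summable b := by
  have h : Summable fun n : ℕ => ((1 + (n : ℝ)) ^ 2)⁻¹ := by
    have := (summable_nat_add_iff 1).mpr (Real.summable_nat_pow_inv.mpr one_lt_two)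
    simpa [add_comm] using this
  exact Summable.of_nat_of_neg (by simpa [b] using h) (by simpa [b] using h)

theorem sq4 (x y : ℝ≥0∞) : (x + y) ^ 2 ≤ 4 * (x ^ 2 + y ^ 2) := by
  rcases le_total x y with h | h
  · calc (x + y) ^ 2 ≤ (y + y) ^ 2 := by gcongr
      _ = 4 * y ^ 2 := by ring
      _ ≤ _ := by gcongr; exact le_add_self
  · calc (x + y) ^ 2 ≤ (x + x) ^ 2 := by gcongr
      _ = 4 * x ^ 2 := by ring
      _ ≤ _ := by gcongr; exact le_self_add

theorem seq (c : ℤ → ℂ) (K : ℝ) (hc : ∀ i : ℤ, (1 + |(i : ℝ)|) * ‖c i‖ ≤ K * b i) (N : ℕ) (η : ℝ)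
    (hη : ‖∑' i, c i‖ ≤ η) :
    ∑' k : ℤ, ‖∑ j ∈ Finset.Ico (0 : ℤ) N, c (j - k)‖ₑ ^ 2 ≤
      ENNReal.ofReal (4 * (4 * (K * ∑' i, b i) ^ 2 + N * η ^ 2)) := by
  have hK : 0 ≤ K := by
    by_contra h
    nlinarith [hc 0, b_pos 0, norm_nonneg (c 0), abs_nonneg ((0 : ℤ) : ℝ)]
  have h1 : ∀ i, ‖c i‖ ≤ K * b i := fun i =>
    le_trans (le_mul_of_one_le_left (norm_nonneg _) (by simp)) (hc i)
  have sc : Summable c := .of_norm_bounded (sb.mul_left K) h1
  set S := K * ∑' i, b i with hS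
  have S0 : 0 ≤ S := mul_nonneg hK (tsum_nonneg fun i => (b_pos i).le)
  have hS1 : ∑' i : ℤ, ENNReal.ofReal (K * b i) = ENNReal.ofReal S := by
    rw [← ENNReal.ofReal_tsum_of_nonneg (fun i => mul_nonneg hK (b_pos i).le) (sb.mul_left K),
      tsum_mul_left]
  let w : ℤ → ℂ := fun m => if m ∈ Finset.Ico (0 : ℤ) N then 1 else 0
  have w1 : ∀ m m', ‖w m - w m'‖ ≤ 1 := fun m m' => by
    simp only [w]; split_ifs <;> simp
  have e1 : ∀ k, ∑ j ∈ Finset.Ico (0 : ℤ) N, c (j - k) =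
      ∑' i, (w (k + i) - w k) * c i + w k * ∑' i, c i := fun k => by
    rw [← tsum_mul_left, ← Summable.tsum_add (.of_norm_bounded sc.norm fun i => by
      rw [norm_mul]; exact mul_le_of_le_one_left (norm_nonneg _) (w1 _ _)) (sc.mul_left _),
      ← (Equiv.subRight k).tsum_eq, tsum_eq_sum (s := Finset.Ico (0 : ℤ) N)]
    · refine Finset.sum_congr rfl fun j hj => ?_
      simp only [Equiv.subRight_apply, add_sub_cancel, w, hj, if_true]
      ring
    · intro j hj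
      simp only [Equiv.subRight_apply, add_sub_cancel, w, hj, if_false]
      ring
  set β : ℤ → ℝ≥0∞ := fun k => ∑' i, ‖w (k + i) - w k‖ₑ * ‖c i‖ₑ with hβ
  have β1 : ∀ k, β k ≤ ENNReal.ofReal S := fun k => by
    rw [← hS1]
    refine ENNReal.tsum_le_tsum fun i => ?_
    rw [← enorm_mul, ← ofReal_norm, norm_mul]
    exact ENNReal.ofReal_le_ofReal ((mul_le_of_le_one_left (norm_nonneg _) (w1 _ _)).trans (h1 i))
  have β2 : ∑' k, β k ≤ 4 * ENNReal.ofReal S := by
    rw [hβ, ENNReal.tsum_comm, ← hS1, ← ENNReal.tsum_mul_left]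
    refine ENNReal.tsum_le_tsum fun i => ?_
    rw [ENNReal.tsum_mul_right]
    have : ∑' k, ‖w (k + i) - w k‖ₑ ≤ 4 * ENNReal.ofReal (1 + |(i : ℝ)|) := by
      rw [tsum_eq_sum (s := Finset.Icc (-|i|) |i| ∪ Finset.Icc (N - |i|) (N + |i|))]
      · refine (Finset.sum_le_card_nsmul _ _ 1 fun k _ => ?_).trans ?_
        · rw [← ofReal_norm]
          exact ENNReal.ofReal_le_one.mpr (w1 _ _)
        · have h2 : (Finset.Icc (-|i|) |i| ∪ Finset.Icc (N - |i|) (N + |i|)).card ≤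
              4 * (1 + i.natAbs) := by
            refine (Finset.card_union_le _ _).trans ?_
            rw [Int.card_Icc, Int.card_Icc, Int.abs_eq_natAbs]
            omega
          have h3 : 1 + |(i : ℝ)| = ((1 + i.natAbs : ℕ) : ℝ) := by
            rw [← Int.cast_abs, Int.abs_eq_natAbs, Int.cast_natCast, Nat.cast_add, Nat.cast_one]
          rw [nsmul_one, h3, ENNReal.ofReal_natCast]
          exact_mod_cast h2
      · intro k hk
        simp only [Finset.mem_union, Finset.mem_Icc, Int.abs_eq_natAbs] at hk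
        have : k + i ∈ Finset.Ico (0 : ℤ) N ↔ k ∈ Finset.Ico (0 : ℤ) N := by
          simp only [Finset.mem_Ico]; omega
        simp only [w, this, sub_self, enorm_zero]
    refine (mul_le_mul_left this _).trans ?_
    rw [mul_assoc, ← ofReal_norm, ← ENNReal.ofReal_mul (by positivity)]
    exact mul_le_mul_right (ENNReal.ofReal_le_ofReal (hc i)) _
  have η0 : 0 ≤ η := (norm_nonneg _).trans hη
  have e2 : ∀ k, ‖∑ j ∈ Finset.Ico (0 : ℤ) N, c (j - k)‖ₑ ^ 2 ≤
      4 * (ENNReal.ofReal S * β k + ‖w k‖ₑ * ENNReal.ofReal (η ^ 2)) := fun k => by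
    have a1 : ‖∑ j ∈ Finset.Ico (0 : ℤ) N, c (j - k)‖ₑ ≤ β k + ‖w k‖ₑ * ENNReal.ofReal η := by
      rw [e1]
      refine (enorm_add_le _ _).trans (add_le_add (enorm_tsum_le_tsum_enorm.trans (le_of_eq ?_)) ?_)
      · simp only [hβ, enorm_mul]
      · rw [enorm_mul, ← ofReal_norm (∑' i, c i)]
        exact mul_le_mul_right (ENNReal.ofReal_le_ofReal hη) _
    refine (pow_le_pow_left' a1 2).trans ((sq4 _ _).trans (mul_le_mul_right (add_le_add ?_ ?_) _))
    · rw [sq]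
      exact mul_le_mul_left (β1 k) _
    · rw [mul_pow, ENNReal.ofReal_pow η0]
      simp only [w]
      split_ifs <;> simp
  refine (ENNReal.tsum_le_tsum e2).trans ?_
  have e3 : ∑' k, ‖w k‖ₑ = N := by
    rw [tsum_eq_sum (s := Finset.Ico (0 : ℤ) N) fun k hk => by simp only [w, hk, if_false, enorm_zero],
      Finset.sum_congr rfl (g := fun _ => 1) fun k hk => by simp only [w, hk, if_true, enorm_one]]
    simp
  rw [ENNReal.tsum_mul_left, ENNReal.tsum_add, ENNReal.tsum_mul_left, ENNReal.tsum_mul_right, e3,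
    ENNReal.ofReal_mul (p := 4) (by norm_num), ENNReal.ofReal_add (by positivity) (by positivity),
    ENNReal.ofReal_mul (p := 4) (by norm_num), ENNReal.ofReal_mul (Nat.cast_nonneg _),
    ENNReal.ofReal_natCast, ENNReal.ofReal_ofNat, ENNReal.ofReal_pow S0]
  refine mul_le_mul_right (add_le_add_left ((mul_le_mul_right β2 _).trans (le_of_eq ?_)) _) _
  ring

theorem dec {g : ℝ → ℝ} {K R α x : ℝ} (hα : 1 ≤ α) (hK : ∀ t, |g t| * (1 + |t|) ^ 3 ≤ K)
    (hx : |x| ≤ R) (i : ℤ) : (1 + |(i : ℝ)|) * |g (x + α * i)| ≤ K * (1 + R) ^ 3 * b i := by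
  have h1 : 1 + |(i : ℝ)| ≤ (1 + R) * (1 + |x + α * i|) := by
    have a1 : |α * i| ≤ |x + α * i| + |x| := by
      simpa using abs_sub (x + α * i) x
    rw [abs_mul, abs_of_pos (by linarith : 0 < α)] at a1
    nlinarith [abs_nonneg (i : ℝ), abs_nonneg x, abs_nonneg (x + α * i)]
  have h2 := pow_le_pow_left₀ (by positivity) h1 3
  have R0 : 0 ≤ R := (abs_nonneg _).trans hx
  rw [b, le_mul_inv_iff₀ (by positivity)]
  calc (1 + |(i : ℝ)|) * |g (x + α * i)| * (1 + |(i : ℝ)|) ^ 2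
      = |g (x + α * i)| * (1 + |(i : ℝ)|) ^ 3 := by ring
    _ ≤ |g (x + α * i)| * ((1 + R) * (1 + |x + α * i|)) ^ 3 := by gcongr
    _ = |g (x + α * i)| * (1 + |x + α * i|) ^ 3 * (1 + R) ^ 3 := by ring
    _ ≤ _ := by gcongr; exact hK _

noncomputable def tf (α ε : ℝ) (N : ℕ) (t : ℝ) : ℂ :=
  ∑ j ∈ Finset.Ico (0 : ℤ) N, (Ioc (0 : ℝ) ε).indicator (fun _ => (1 : ℂ)) (t - α * j)

noncomputable def V (g : ℝ → ℝ) (f : ℝ → ℂ) (z : ℝ × ℝ) : ℂ :=
  ∫ t, f t * (starRingEnd ℂ) (Complex.exp (2 * π * Complex.I * z.2 * t) * g (t - z.1))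

noncomputable def Z (g : ℝ → ℝ) (α ω x : ℝ) : ℂ := ∑' i : ℤ, (𝐞 (-(ω * (α * i))) : ℂ) * g (x + α * i)

theorem one {g : ℝ → ℝ} (cg : Continuous g) {K R α : ℝ} (hα : 1 ≤ α)
    (hK : ∀ t, |g t| * (1 + |t|) ^ 3 ≤ K) {y : ℝ} (ω : ℝ) (hy : |y| ≤ R) {ε η : ℝ} (h0 : 0 < ε)
    (h1 : ε ≤ 1) (hZ : ∀ t ∈ Ioc 0 ε, ‖Z g α ω (t + y)‖ ≤ η) (N : ℕ) :
    ∑' p : ℤ × ℤ, ‖V g (tf α ε N) (α * p.1 - y, p.2 / α + ω)‖ₑ ^ 2 ≤ ENNReal.ofReal α *
      (ENNReal.ofReal (4 * (4 * (K * (1 + (1 + R)) ^ 3 * ∑' i, b i) ^ 2 + N * η ^ 2)) *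
        ENNReal.ofReal ε) := by
  have α0 : 0 < α := by linarith
  set u : ℤ → ℝ → ℂ := fun k t => ∑ j ∈ Finset.Ico (0 : ℤ) N,
    (𝐞 (-(ω * (α * (j - k : ℤ)))) : ℂ) * g (t + y + α * (j - k : ℤ)) with hu
  have cu : ∀ k, Continuous (u k) := fun k => by simp only [hu]; fun_prop
  set F : ℤ → ℝ → ℂ := fun k => (Ioc (0 : ℝ) ε).indicator
    fun t => (𝐞 (-(ω * (t + α * k))) : ℂ) * u k t with hF
  have e1 : ∀ k l : ℤ, V g (tf α ε N) (α * k - y, l / α + ω) =
      ∫ t in Ioc 0 (0 + α), (𝐞 ((-l : ℤ) * t / α) : ℂ) * F k t := by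
    intro k l
    set H : ℝ → ℂ := fun t => (starRingEnd ℂ) (Complex.exp (2 * π * Complex.I *
      (l / α + ω : ℝ) * t) * g (t - (α * k - y))) with hH
    have cH : Continuous H := by simp only [hH]; fun_prop
    have i1 : ∀ j : ℤ, Integrable fun t => (Ioc (0 : ℝ) ε).indicator (fun _ => (1 : ℂ)) t *
        H (t + α * j) := fun j => by
      refine ((integrable_indicator_iff measurableSet_Ioc).mpr
        ((cH.comp (continuous_add_const (α * j))).integrableOn_Ioc (a := 0) (b := ε))).congr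
        (.of_forall fun t => ?_)
      simp only [indicator]
      split_ifs <;> simp
    have a1 : ∀ j : ℤ, ∫ t, (Ioc (0 : ℝ) ε).indicator (fun _ => (1 : ℂ)) (t - α * j) * H t =
        ∫ t, (Ioc (0 : ℝ) ε).indicator (fun _ => (1 : ℂ)) t * H (t + α * j) := fun j => by
      rw [← integral_add_right_eq_self _ (α * j)]
      simp only [add_sub_cancel_right]
    show ∫ t, tf α ε N t * H t = _
    simp only [tf, Finset.sum_mul]
    rw [integral_finsetSum _ fun j _ => by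
      simpa only [sub_add_cancel] using (i1 j).comp_sub_right (α * j)]
    simp only [a1]
    rw [← integral_finsetSum _ fun j _ => i1 j, setIntegral_eq_integral_of_forall_compl_eq_zero]
    · refine integral_congr_ae (.of_forall fun t => ?_)
      by_cases ht : t ∈ Ioc (0 : ℝ) ε
      · simp only [hF, hu, indicator_of_mem ht, one_mul, Finset.mul_sum]
        refine Finset.sum_congr rfl fun j _ => ?_
        simp only [hH, map_mul, Complex.conj_ofReal, ← Complex.exp_conj, Complex.conj_I, map_ofNat,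
          Real.fourierChar_apply, ← mul_assoc, ← Complex.exp_add]
        congr 1
        · rw [Complex.exp_eq_exp_iff_exists_int]
          refine ⟨-(l * j), ?_⟩
          have : (α : ℂ) ≠ 0 := by exact_mod_cast α0.ne'
          push_cast
          field_simp
          ring
        · congr 2
          push_cast
          ring
      · simp only [hF, indicator_of_notMem ht, zero_mul, mul_zero, Finset.sum_const_zero]
    · intro t ht
      rw [hF]
      simp only
      rw [indicator_of_notMem fun h => ht ⟨h.1, by linarith [h.2]⟩, mul_zero]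
  have e2 : ∀ k : ℤ, ∑' l : ℤ, ‖V g (tf α ε N) (α * k - y, l / α + ω)‖ₑ ^ 2 =
      ENNReal.ofReal α * ∫⁻ t in Ioc 0 ε, ‖u k t‖ₑ ^ 2 := fun k => by
    have hm : MemLp (F k) 2 (volume.restrict (Ioc 0 (0 + α))) := by
      refine MemLp.indicator measurableSet_Ioc ?_
      have c1 : Continuous fun t => (𝐞 (-(ω * (t + α * k))) : ℂ) * u k t := by fun_prop
      exact (memLp_two_iff_integrable_sq_norm c1.aestronglyMeasurable).mpr
        (c1.norm.pow 2).integrableOn_Ioc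
    simp only [e1]
    refine ((Equiv.neg ℤ).tsum_eq fun l : ℤ =>
      ‖∫ t in Ioc 0 (0 + α), (𝐞 (l * t / α) : ℂ) * F k t‖ₑ ^ 2).trans ?_
    rw [P1 0 α α0 _ hm, ← lintegral_indicator measurableSet_Ioc,
      ← lintegral_indicator measurableSet_Ioc]
    congr 2
    funext t
    by_cases ht : t ∈ Ioc (0 : ℝ) ε
    · rw [indicator_of_mem ht, indicator_of_mem (show t ∈ Ioc 0 (0 + α) from
        ⟨ht.1, by linarith [ht.2]⟩), hF]
      simp only [indicator_of_mem ht]
      rw [esq, esq, norm_mul, Circle.norm_coe, one_mul]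
    · rw [indicator_of_notMem ht]
      simp [hF, indicator, mt (fun h => h) ht]
  rw [ENNReal.tsum_prod']
  simp only [e2]
  rw [ENNReal.tsum_mul_left,
    ← lintegral_tsum fun k => ((cu k).measurable.enorm.pow_const 2).aemeasurable]
  refine mul_le_mul_right (le_trans (setLIntegral_mono' measurableSet_Ioc (g := fun _ =>
    ENNReal.ofReal (4 * (4 * (K * (1 + (1 + R)) ^ 3 * ∑' i, b i) ^ 2 + N * η ^ 2))) fun t ht => ?_)
    (le_of_eq ?_)) _
  · refine seq (fun i => (𝐞 (-(ω * (α * i))) : ℂ) * g (t + y + α * i)) _ (fun i => ?_) N η (hZ t ht)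
    rw [norm_mul, Circle.norm_coe, one_mul, Complex.norm_real]
    exact dec hα hK ((abs_add_le _ _).trans (add_le_add (by
      rw [abs_of_pos ht.1]; linarith [ht.2]) hy)) i
  · rw [setLIntegral_const, Real.volume_Ioc, sub_zero]

theorem tf_norm {α ε : ℝ} (hα : 1 ≤ α) (h0 : 0 < ε) (h1 : ε ≤ 1) (N : ℕ) :
    MemLp (tf α ε N) 2 volume ∧ N * ENNReal.ofReal ε ≤ ∫⁻ t, ‖tf α ε N t‖ₑ ^ 2 := by
  have e : ∀ (j : ℤ) (t : ℝ), (Ioc (0 : ℝ) ε).indicator (fun _ => (1 : ℂ)) (t - α * j) =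
      (Ioc (α * j) (α * j + ε)).indicator (fun _ => (1 : ℂ)) t := fun j t => by
    simp only [indicator, mem_Ioc, sub_pos, sub_le_iff_le_add']
  constructor
  · unfold tf
    simp only [e]
    exact memLp_finsetSum _ fun j _ => memLp_indicator_const 2 measurableSet_Ioc 1 (Or.inr (by simp))
  · have h2 : (N : ℝ≥0∞) * ENNReal.ofReal ε = ∫⁻ t, ∑ j ∈ Finset.Ico (0 : ℤ) N,
        (Ioc (α * j) (α * j + ε)).indicator (fun _ => (1 : ℝ≥0∞)) t := by
      rw [lintegral_finsetSum _ fun j _ => measurable_const.indicator measurableSet_Ioc]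
      simp
    rw [h2]
    refine lintegral_mono fun t => ?_
    simp only [tf, e]
    by_cases h : ∃ j ∈ Finset.Ico (0 : ℤ) N, t ∈ Ioc (α * j) (α * j + ε)
    · obtain ⟨j, hj, ht⟩ := h
      have h3 : ∀ i : ℤ, i ≠ j → t ∉ Ioc (α * i) (α * i + ε) := fun i hi h => hi (by
        have a1 : (i : ℝ) < j + 1 := lt_of_mul_lt_mul_left (a := α) (by linarith [h.1, ht.2])
          (by linarith)
        have a2 : (j : ℝ) < i + 1 := lt_of_mul_lt_mul_left (a := α) (by linarith [h.2, ht.1])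
          (by linarith)
        norm_cast at a1 a2
        omega)
      rw [Finset.sum_eq_single_of_mem j hj fun i _ hi => indicator_of_notMem (h3 i hi) _,
        Finset.sum_eq_single_of_mem j hj fun i _ hi => indicator_of_notMem (h3 i hi) _]
      simp [ht]
    · push Not at h
      rw [Finset.sum_eq_zero fun j hj => indicator_of_notMem (h j hj) _]
      exact zero_le

theorem Z_cont {g : ℝ → ℝ} (cg : Continuous g) {K α : ℝ} (hα : 1 ≤ α)
    (hK : ∀ t, |g t| * (1 + |t|) ^ 3 ≤ K) (ω : ℝ) : Continuous (Z g α ω) := by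
  refine continuous_iff_continuousAt.mpr fun x => ?_
  refine (continuousOn_tsum (s := Metric.closedBall 0 (|x| + 1)) (fun i => Continuous.continuousOn
    (by fun_prop)) (sb.mul_left (K * (1 + (|x| + 1)) ^ 3)) fun i t ht => ?_).continuousAt
    (Metric.closedBall_mem_nhds_of_mem (by simp))
  rw [norm_mul, Circle.norm_coe, one_mul, Complex.norm_real]
  exact le_trans (le_mul_of_one_le_left (norm_nonneg _) (by simp)) (dec hα hK (by simpa using ht) i)

theorem nf {g : ℝ → ℝ} (cg : Continuous g) {K α : ℝ} (hα : 1 ≤ α)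
    (hK : ∀ t, |g t| * (1 + |t|) ^ 3 ≤ K) {I : Type} [Fintype I] (y ω : I → ℝ)
    (hZ : ∀ m, Z g α (ω m) (y m) = 0) (A : ℝ) (hA : 0 < A) :
    ∃ f : ℝ → ℂ, MemLp f 2 volume ∧ ∑' q : I × ℤ × ℤ,
      ‖V g f (α * q.2.1 - y q.1, q.2.2 / α + ω q.1)‖ₑ ^ 2 < ENNReal.ofReal A * ∫⁻ t, ‖f t‖ₑ ^ 2 := by
  obtain ⟨R, hR⟩ := (Set.finite_range fun m => |y m|).bddAbove
  set M : ℝ := (Fintype.card I : ℝ) with hM
  have M0 : 0 ≤ M := Nat.cast_nonneg _
  set S := K * (1 + (1 + R)) ^ 3 * ∑' i, b i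
  obtain ⟨η, η0, hη⟩ : ∃ η : ℝ, 0 < η ∧ M * α * 4 * η ^ 2 ≤ A / 2 := by
    refine ⟨min 1 (A / (8 * (M * α + 1))), by positivity, ?_⟩
    have a1 := min_le_left 1 (A / (8 * (M * α + 1)))
    have a2 := min_le_right 1 (A / (8 * (M * α + 1)))
    have a3 : 0 < min 1 (A / (8 * (M * α + 1))) := by positivity
    rw [le_div_iff₀ (by positivity)] at a2
    have a4 : 0 ≤ M * α := by positivity
    nlinarith [mul_nonneg a4 (mul_nonneg a3.le (sub_nonneg.mpr a1))]
  have hev : ∀ᶠ t in 𝓝 (0 : ℝ), ∀ m, ‖Z g α (ω m) (t + y m)‖ ≤ η := by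
    refine eventually_all.mpr fun m => ?_
    have c1 : Continuous fun t => ‖Z g α (ω m) (t + y m)‖ :=
      ((Z_cont cg hα hK _).comp (by fun_prop)).norm
    exact c1.continuousAt.eventually_le_const (by simp [hZ, η0])
  obtain ⟨δ, δ0, hδ⟩ := Metric.eventually_nhds_iff.mp hev
  obtain ⟨N, hN⟩ := exists_nat_gt (M * α * 32 * S ^ 2 / A)
  rw [div_lt_iff₀ hA] at hN
  set ε := min 1 (δ / 2)
  have e0 : 0 < ε := by positivity
  have e1 : ε ≤ 1 := min_le_left _ _
  have e2 : ε ≤ δ / 2 := min_le_right _ _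
  refine ⟨tf α ε N, (tf_norm hα e0 e1 N).1, lt_of_lt_of_le ?_
    (mul_le_mul_right (tf_norm hα e0 e1 N).2 _)⟩
  rw [ENNReal.tsum_prod', tsum_fintype]
  refine (Finset.sum_le_card_nsmul _ _ _ fun m _ => one cg hα hK (ω m) (hR ⟨m, rfl⟩) e0 e1
    (fun t ht => hδ (by rw [Real.dist_eq, sub_zero, abs_of_pos ht.1]; linarith [ht.2]) m) N).trans_lt ?_
  rw [nsmul_eq_mul, ← ENNReal.ofReal_natCast, ← ENNReal.ofReal_natCast,
    ← ENNReal.ofReal_mul (by positivity), ← ENNReal.ofReal_mul (by positivity),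
    ← ENNReal.ofReal_mul (by positivity), ← ENNReal.ofReal_mul (by positivity),
    ← ENNReal.ofReal_mul (by positivity), Finset.card_univ, ← hM]
  have N0 : (0 : ℝ) < N := by
    by_contra h
    nlinarith [mul_nonneg (mul_nonneg M0 (by linarith : 0 ≤ α)) (sq_nonneg S)]
  rw [ENNReal.ofReal_lt_ofReal_iff (by positivity)]
  nlinarith [mul_le_mul_of_nonneg_left hη (mul_pos N0 e0).le, mul_lt_mul_of_pos_right hN e0]

end Pool.Agent.H.MP_bef260_an
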