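import Pool.Agent.H.MP_bef260_an.A

set_option autoImplicit false

namespace Pool.Agent.H.MP_bef260_an
open scoped ENNReal Topology
open MeasureTheory Set Real FourierTransform Filter Polynomial

noncomputable def ph (n : ℕ) : ℝ → ℝ := iteratedDeriv n fun y => exp (-2 * π * y ^ 2)

theorem dpoly (p : ℝ[X]) (t : ℝ) : HasDerivAt (fun t => p.eval t * exp (-2 * π * t ^ 2))
    ((derivative p - C (4 * π) * X * p).eval t * exp (-2 * π * t ^ 2)) t := by
  have h1 : HasDerivAt (fun t : ℝ => -2 * π * t ^ 2) (-2 * π * (2 * t)) t := by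
    simpa using (hasDerivAt_pow 2 t).const_mul (-2 * π)
  refine ((p.hasDerivAt t).mul h1.exp).congr_deriv ?_
  simp only [eval_sub, eval_mul, eval_C, eval_X]
  ring

theorem ph_poly (n : ℕ) : ∃ p : ℝ[X], ph n = fun t => p.eval t * exp (-2 * π * t ^ 2) := by
  induction n with
  | zero => exact ⟨1, by funext t; simp [ph]⟩
  | succ n ih =>
    obtain ⟨p, hp⟩ := ih
    refine ⟨derivative p - C (4 * π) * X * p, funext fun t => ?_⟩
    rw [ph, iteratedDeriv_succ, ← ph, hp]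
    exact (dpoly p t).deriv

theorem ph_der (n : ℕ) (t : ℝ) : HasDerivAt (ph n) (ph (n + 1) t) t := by
  obtain ⟨p, hp⟩ := ph_poly n
  rw [ph, ph, iteratedDeriv_succ, ← ph, hp]
  exact (dpoly p t).differentiableAt.hasDerivAt

theorem pz (p : ℝ[X]) {a : ℝ} (ha : 0 < a) :
    Tendsto (fun t => p.eval t * exp (-a * t ^ 2)) (cocompact ℝ) (𝓝 0) := by
  induction p using Polynomial.induction_on' with
  | add p q hp hq => simpa [add_mul] using hp.add hq
  | monomial n c =>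
    rw [tendsto_zero_iff_norm_tendsto_zero]
    have := (tendsto_rpow_abs_mul_exp_neg_mul_sq_cocompact ha n).const_mul |c|
    rw [mul_zero] at this
    refine this.congr fun t => ?_
    simp [mul_assoc]

theorem ph_z (n : ℕ) : Tendsto (ph n) (cocompact ℝ) (𝓝 0) := by
  obtain ⟨p, hp⟩ := ph_poly n
  rw [hp]
  simpa using pz p (a := 2 * π) (by positivity)

theorem mvt (n : ℕ) {a c s : ℝ} (h : a < c) (hs : s * ph n a < s * ph n c) :
    ∃ x, a < x ∧ x < c ∧ 0 < s * ph (n + 1) x := by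
  obtain ⟨x, hx, e⟩ := exists_hasDerivAt_eq_slope (ph n) (ph (n + 1)) h
    (fun t _ => (ph_der n t).continuousAt.continuousWithinAt) fun t _ => ph_der n t
  refine ⟨x, hx.1, hx.2, ?_⟩
  rw [e, ← mul_div_assoc]
  exact div_pos (by linarith) (by linarith)

theorem alt (n : ℕ) : ∃ t : ℕ → ℝ, (∀ i < n, t i < t (i + 1)) ∧ ∀ i ≤ n, 0 < (-1) ^ i * ph n (t i) := by
  induction n with
  | zero => exact ⟨fun _ => 0, by simp, by simp [ph]⟩
  | succ n ih =>
    obtain ⟨t, h1, h2⟩ := ih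
    have key : ∀ i, ∃ s, i ≤ n + 1 → (i ≤ n → s < t i) ∧ (∀ j, i = j + 1 → t j < s) ∧
        0 < (-1) ^ i * ph (n + 1) s := by
      intro i
      rcases i with _ | i
      · have h3 := h2 0 n.zero_le
        rw [pow_zero, one_mul] at h3
        obtain ⟨u, hu, hu'⟩ := ((((ph_z n).mono_left atBot_le_cocompact).eventually_lt_const h3).and
          (eventually_lt_atBot (t 0))).exists
        obtain ⟨x, -, a2, a3⟩ := mvt n (s := 1) hu' (by simpa using hu)
        exact ⟨x, fun _ => ⟨fun _ => a2, by simp, by simpa using a3⟩⟩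
      rcases lt_trichotomy i n with h | rfl | h
      · obtain ⟨x, a1, a2, a3⟩ := mvt n (s := (-1) ^ (i + 1)) (h1 i h) (by
          have := h2 i h.le
          have := h2 (i + 1) h
          rw [pow_succ] at *
          linarith)
        exact ⟨x, fun _ => ⟨fun _ => a2, fun j hj => by rwa [← Nat.succ_injective hj], a3⟩⟩
      · have h3 := h2 i le_rfl
        have h4 := ((ph_z i).mono_left atTop_le_cocompact).const_mul ((-1) ^ i)
        rw [mul_zero] at h4
        obtain ⟨u, hu, hu'⟩ := ((h4.eventually_lt_const h3).and (eventually_gt_atTop (t i))).exists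
        obtain ⟨x, a1, -, a3⟩ := mvt i (s := (-1) ^ (i + 1)) hu' (by rw [pow_succ]; linarith)
        exact ⟨x, fun _ => ⟨fun h => by omega, fun j hj => by rwa [← Nat.succ_injective hj], a3⟩⟩
      · exact ⟨0, fun _ => by omega⟩
    choose s hs using key
    exact ⟨s, fun i hi => ((hs i hi.le).1 (by omega)).trans ((hs (i + 1) hi).2.1 i rfl),
      fun i hi => (hs i hi).2.2⟩

theorem ph_par (n : ℕ) (t : ℝ) : ph n (-t) = (-1) ^ n * ph n t := by
  have := iteratedDeriv_comp_neg n (fun y : ℝ => exp (-2 * π * y ^ 2)) (-t)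
  simp only [neg_sq, neg_neg, smul_eq_mul] at this
  exact this

noncomputable def Zr (g : ℝ → ℝ) (α : ℝ) (σ : ℤ) (x : ℝ) : ℝ := ∑' i : ℤ, (-1) ^ (σ * i) * g (x + α * i)

theorem Z_eq (g : ℝ → ℝ) {α : ℝ} (hα : 1 ≤ α) (σ : ℤ) (x : ℝ) :
    Z g α (σ / (2 * α)) x = Zr g α σ x := by
  rw [Z, Zr, Complex.ofReal_tsum]
  refine tsum_congr fun i => ?_
  have : (α : ℂ) ≠ 0 := by exact_mod_cast (by linarith : α ≠ 0)
  rw [Real.fourierChar_apply]
  push_cast
  rw [← Complex.exp_pi_mul_I, ← Complex.exp_int_mul]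
  congr 1
  rw [Complex.exp_eq_exp_iff_exists_int]
  refine ⟨-(σ * i), ?_⟩
  push_cast
  field_simp
  ring

theorem Z_half {g : ℝ → ℝ} (n : ℕ) (hg : ∀ t, g (-t) = (-1) ^ n * g t) (α : ℝ) :
    Zr g α (n + 1) (α / 2) = 0 := by
  have : Zr g α (n + 1) (α / 2) = -Zr g α (n + 1) (α / 2) := by
    rw [Zr, ← tsum_neg, ← (Equiv.subLeft (-1 : ℤ)).tsum_eq]
    refine tsum_congr fun i => ?_
    have e : α / 2 + α * ((-1 - i : ℤ) : ℝ) = -(α / 2 + α * i) := by push_cast; ring
    have e2 : ((n : ℤ) + 1) * (-1 - i) = (n + 1) * i + (n + 1) + 2 * -((n + 1) * (i + 1)) := by ring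
    rw [Equiv.subLeft_apply, e, hg, e2, zpow_add₀ (by norm_num), zpow_add₀ (by norm_num),
      zpow_add₀ (by norm_num), zpow_mul (-1 : ℝ) 2, zpow_natCast, zpow_one]
    have e3 : ((-1 : ℝ) ^ n) ^ 2 = 1 := by rw [← pow_mul, mul_comm, pow_mul]; simp
    norm_num
    linear_combination (-1 : ℝ) ^ (((n : ℤ) + 1) * i) * g (α / 2 + α * i) * e3
  linarith

theorem Z_near {g : ℝ → ℝ} {K α x : ℝ} (hα : 1 ≤ α) (hK : ∀ t, |g t| * (1 + |t|) ^ 3 ≤ K)
    (hx : |x| ≤ α / 2) (σ : ℤ) : |Zr g α σ x - g x| ≤ 16 * K / α * ∑' i, b i := by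
  have K0 : 0 ≤ K := le_trans (by positivity) (hK 0)
  have s1 : Summable fun i : ℤ => (-1 : ℝ) ^ (σ * i) * g (x + α * i) := by
    refine .of_norm_bounded (sb.mul_left (K * (1 + α / 2) ^ 3)) fun i => ?_
    rw [norm_mul, norm_zpow, norm_neg, norm_one, one_zpow, one_mul]
    exact le_trans (le_mul_of_one_le_left (norm_nonneg _) (by simp)) (dec hα hK hx i)
  rw [Zr, s1.tsum_eq_add_tsum_ite 0, ← tsum_mul_left]
  simp only [mul_zero, zpow_zero, one_mul, Int.cast_zero, add_zero, add_sub_cancel_left]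
  rw [← Real.norm_eq_abs]
  refine tsum_of_norm_bounded (sb.mul_left _).hasSum fun i => ?_
  have := b_pos i
  split_ifs with h
  · rw [norm_zero]; positivity
  rw [norm_mul, norm_zpow, norm_neg, norm_one, one_zpow, one_mul, Real.norm_eq_abs]
  have a0 : (1 : ℝ) ≤ |(i : ℝ)| := by exact_mod_cast Int.one_le_abs h
  have a1 : |α * i| ≤ |x + α * i| + |x| := by simpa using abs_sub (x + α * i) x
  rw [abs_mul, abs_of_pos (by linarith : 0 < α)] at a1
  have a2 : α * (1 + |(i : ℝ)|) ≤ 4 * (1 + |x + α * i|) := by nlinarith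
  have a3 := pow_le_pow_left₀ (by positivity) a2 2
  rw [b, le_mul_inv_iff₀ (by positivity), le_div_iff₀ (by positivity)]
  have a4 := hK (x + α * i)
  set y := |x + α * i|
  set G := |g (x + α * i)|
  have y0 : 0 ≤ y := abs_nonneg _
  have G0 : 0 ≤ G := abs_nonneg _
  calc G * (1 + |(i : ℝ)|) ^ 2 * α ≤ G * (1 + |(i : ℝ)|) ^ 2 * α * α :=
        le_mul_of_one_le_right (by positivity) hα
    _ = G * (α * (1 + |(i : ℝ)|)) ^ 2 := by ring
    _ ≤ G * (4 * (1 + y)) ^ 2 := by gcongr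
    _ ≤ G * (4 * (1 + y)) ^ 2 * (1 + y) := le_mul_of_one_le_right (by positivity) (by linarith)
    _ = 16 * (G * (1 + y) ^ 3) := by ring
    _ ≤ _ := by gcongr

theorem sep {α : ℝ} (hα : 0 < α) (d : ℝ) : ∃ δ > 0, ∀ k : ℤ, d + α * k ≠ 0 → δ ≤ |d + α * k| := by
  set j := ⌊-d / α⌋
  have h1 : α * j ≤ -d := by have := Int.floor_le (-d / α); rwa [le_div_iff₀' hα] at this
  have h2 : -d < α * (j + 1) := by have := Int.lt_floor_add_one (-d / α); rwa [div_lt_iff₀' hα] at this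
  refine ⟨min (min α (d + α * (j + 1))) (if d + α * j = 0 then 1 else -(d + α * j)), ?_, fun k hk => ?_⟩
  · refine lt_min (lt_min hα (by linarith)) ?_
    split_ifs with h
    · exact one_pos
    · exact neg_pos.mpr (lt_of_le_of_ne (by linarith) h)
  rcases lt_trichotomy k j with h | rfl | h
  · have : (k : ℝ) + 1 ≤ j := by exact_mod_cast h
    exact (min_le_left _ _).trans ((min_le_left _ _).trans (le_abs.mpr (Or.inr (by nlinarith))))
  · rw [if_neg hk]
    exact (min_le_right _ _).trans (neg_le_abs _)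
  · have : (j : ℝ) + 1 ≤ k := by exact_mod_cast h
    exact (min_le_left _ _).trans ((min_le_right _ _).trans (le_abs.mpr (Or.inl (by nlinarith))))

theorem zs {g : ℝ → ℝ} (cg : Continuous g) {K : ℝ} (hK : ∀ t, |g t| * (1 + |t|) ^ 3 ≤ K) (n : ℕ)
    (t : ℕ → ℝ) (s : ℝ) (h1 : ∀ i < n, t i < t (i + 1)) (h2 : ∀ i ≤ n, 0 < (-1) ^ i * s * g (t i)) :
    ∃ α : ℝ, 1 ≤ α ∧ ∃ x : ℤ → ℕ → ℝ, ∀ σ, (∀ i < n, |x σ i| < α / 2 ∧ Zr g α σ (x σ i) = 0) ∧
      ∀ i < n, ∀ j < n, x σ i = x σ j → i = j := by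
  have ev : ∀ᶠ α : ℝ in atTop, ∀ i ∈ Finset.range (n + 1), |t i| < α / 2 ∧
      16 * K / α * ∑' i, b i < |g (t i)| := by
    refine (eventually_all_finset _).mpr fun i hi => ?_
    have a1 : 0 < |g (t i)| := abs_pos.mpr fun h => by
      simpa [h] using h2 i (by simpa [Nat.lt_succ_iff] using hi)
    have a2 := (tendsto_const_nhds (x := 16 * K).div_atTop tendsto_id).mul_const (∑' i, b i)
    rw [zero_mul] at a2
    filter_upwards [a2.eventually_lt_const a1, eventually_gt_atTop (2 * |t i|)] with α b1 b2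
    exact ⟨by linarith, b1⟩
  obtain ⟨α, hα, ha⟩ := ((eventually_ge_atTop 1).and ev).exists
  simp only [Finset.mem_range, Nat.lt_succ_iff] at ha
  refine ⟨α, hα, ?_⟩
  have cZ : ∀ σ : ℤ, Continuous (Zr g α σ) := fun σ => by
    have := Complex.continuous_re.comp (Z_cont cg hα hK (σ / (2 * α)))
    refine this.congr fun x => ?_
    simp [Z_eq g hα]
  have sg : ∀ σ, ∀ i ≤ n, 0 < (-1) ^ i * s * Zr g α σ (t i) := fun σ i hi => by
    have a1 := (Z_near hα hK (ha i hi).1.le σ).trans_lt (ha i hi).2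
    have a2 := h2 i hi
    generalize (-1 : ℝ) ^ i * s = c at *
    rw [abs_lt] at a1
    rcases le_total 0 (g (t i)) with h | h
    · rw [abs_of_nonneg h] at a1
      exact mul_pos (by by_contra h'; nlinarith) (by linarith)
    · rw [abs_of_nonpos h] at a1
      exact mul_pos_of_neg_of_neg (by by_contra h'; nlinarith) (by linarith)
  have key : ∀ (σ : ℤ) (i : ℕ), ∃ x, i < n → x ∈ Ioo (t i) (t (i + 1)) ∧ Zr g α σ x = 0 := by
    intro σ i
    by_cases hi : i < n
    · have a1 := sg σ i hi.le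
      have a2 := sg σ (i + 1) hi
      obtain ⟨x, hx, e⟩ := intermediate_value_Ioo' (h1 i hi).le
        (((cZ σ).const_mul ((-1) ^ i * s)).continuousOn) (show (0 : ℝ) ∈ Ioo _ _ from
          ⟨by rw [pow_succ] at a2; linarith, a1⟩)
      refine ⟨x, fun _ => ⟨hx, (mul_eq_zero.mp e).resolve_left fun h => ?_⟩⟩
      simp [h] at a1
    · exact ⟨0, fun h => absurd h hi⟩
  choose x hx using key
  have mono : ∀ i j, i ≤ j → j ≤ n → t i ≤ t j := fun i j hij => by
    induction j, hij using Nat.le_induction with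
    | base => exact fun _ => le_rfl
    | succ j _ ih => exact fun h => (ih (by omega)).trans (h1 j h).le
  refine ⟨x, fun σ => ⟨fun i hi => ⟨?_, (hx σ i hi).2⟩, fun i hi j hj e => ?_⟩⟩
  · have a1 := abs_lt.mp (ha i hi.le).1
    have a2 := abs_lt.mp (ha (i + 1) hi).1
    exact abs_lt.mpr ⟨a1.1.trans (hx σ i hi).1.1, (hx σ i hi).1.2.trans a2.2⟩
  · have a1 := (hx σ i hi).1
    have a2 := (hx σ j hj).1
    rcases lt_trichotomy i j with h | h | h
    · linarith [mono (i + 1) j h hj.le, a1.2, a2.1]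
    · exact h
    · linarith [mono (j + 1) i h hi.le, a1.1, a2.2]

theorem bnd (n : ℕ) (c : ℝ) : Continuous (fun t => c * exp (π * t ^ 2) * ph n t) ∧
    ∃ K, ∀ t, |c * exp (π * t ^ 2) * ph n t| * (1 + |t|) ^ 3 ≤ K := by
  refine ⟨?_, ?_⟩
  · have : Continuous (ph n) := continuous_iff_continuousAt.mpr fun t => (ph_der n t).continuousAt
    fun_prop
  obtain ⟨p, hp⟩ := ph_poly n
  obtain ⟨K, hK⟩ := ((pz (C c * p * (C 2 + X ^ 2) ^ 3) pi_pos).norm.isCompact_insert_range_of_cocompact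
    (by fun_prop)).bddAbove
  refine ⟨K, fun t => le_trans ?_ (hK (mem_insert_of_mem _ ⟨t, rfl⟩))⟩
  have e : c * exp (π * t ^ 2) * ph n t = c * p.eval t * exp (-π * t ^ 2) := by
    rw [hp, show -π * t ^ 2 = π * t ^ 2 + -2 * π * t ^ 2 by ring, exp_add]
    ring
  simp only [e, eval_mul, eval_pow, eval_add, eval_C, eval_X, Real.norm_eq_abs]
  rw [mul_right_comm _ ((2 + t ^ 2) ^ 3), abs_mul _ ((2 + t ^ 2) ^ 3),
    abs_of_nonneg (a := (2 + t ^ 2) ^ 3) (by positivity)]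
  exact mul_le_mul_of_nonneg_left (pow_le_pow_left₀ (by positivity)
    (by nlinarith [sq_abs t, abs_nonneg t]) 3) (abs_nonneg _)

theorem fin {g : ℝ → ℝ} (cg : Continuous g) {K : ℝ} (hK : ∀ t, |g t| * (1 + |t|) ^ 3 ≤ K) (n : ℕ)
    (hg : ∀ t, g (-t) = (-1) ^ n * g t)
    (t : ℕ → ℝ) (s : ℝ) (h1 : ∀ i < n, t i < t (i + 1)) (h2 : ∀ i ≤ n, 0 < (-1) ^ i * s * g (t i)) :
    ∃ (α : ℝ) (z : Fin (2 * n + 1) → ℝ × ℝ) (Γ : Set (ℝ × ℝ)), 0 < α ∧
      (∀ m m', (∃ k l : ℤ, z m = z m' + (α * k, l / α)) → m = m') ∧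
      Γ = {γ | ∃ m, ∃ k l : ℤ, γ = z m + (α * k, l / α)} ∧
      (∃ δ > 0, ∀ γ ∈ Γ, ∀ γ' ∈ Γ, γ ≠ γ' → δ ≤ dist γ γ') ∧
      ∀ A > 0, ∃ f : ℝ → ℂ, MemLp f 2 volume ∧
        ∑' γ : Γ, ‖V g f γ‖ₑ ^ 2 < ENNReal.ofReal A * ∫⁻ t, ‖f t‖ₑ ^ 2 := by
  obtain ⟨α, hα, x, hx⟩ := zs cg hK n t s h1 h2
  have α0 : 0 < α := by linarith
  let y : Fin (2 * n + 1) → ℝ := fun m =>
    if m.1 < n then x 0 m else if m.1 < 2 * n then x 1 (m - n) else α / 2
  let σ : Fin (2 * n + 1) → ℤ := fun m => if m.1 < n then 0 else if m.1 < 2 * n then 1 else n + 1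
  have hy : ∀ m, -(α / 2) < y m ∧ y m ≤ α / 2 := fun m => by
    simp only [y]
    split_ifs with a1 a2
    · exact (abs_lt.mp ((hx 0).1 m a1).1).imp id le_of_lt
    · exact (abs_lt.mp ((hx 1).1 (m - n) (by omega)).1).imp id le_of_lt
    · exact ⟨by linarith, le_rfl⟩
  refine ⟨α, fun m => (-y m, σ m / (2 * α)), _, α0, ?_, rfl, ?_, fun A hA => ?_⟩
  · rintro m m' ⟨k, l, h⟩
    simp only [Prod.mk_add_mk, Prod.mk.injEq] at h
    obtain ⟨e1, e2⟩ := h
    have a1 : (k : ℝ) < 1 := lt_of_mul_lt_mul_left (a := α) (by linarith [hy m, hy m']) α0.le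
    have a2 : (-1 : ℝ) < k := lt_of_mul_lt_mul_left (a := α) (by linarith [hy m, hy m']) α0.le
    have a3 : k = 0 := by
      norm_cast at a1
      have : (-1 : ℤ) < k := by exact_mod_cast a2
      omega
    have a4 : σ m = σ m' + 2 * l := by
      field_simp at e2
      exact_mod_cast e2
    have a5 : y m = y m' := by simpa [a3] using e1
    have := m.2
    have := m'.2
    simp only [y, σ] at a4 a5
    ext
    split_ifs at a4 a5 with b1 b2 b3 b4 b5 b6 b7 b8
    · exact (hx 0).2 _ b1 _ b2 a5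
    · omega
    · linarith [abs_lt.mp ((hx 0).1 m b1).1]
    · omega
    · have := (hx 1).2 _ (by omega) _ (by omega) a5
      omega
    · linarith [abs_lt.mp ((hx 1).1 (m - n) (by omega)).1]
    · linarith [abs_lt.mp ((hx 0).1 m' b7).1]
    · linarith [abs_lt.mp ((hx 1).1 (m' - n) (by omega)).1]
    · omega
  · choose d d0 hd using fun p : Fin (2 * n + 1) × Fin (2 * n + 1) => sep α0 (y p.2 - y p.1)
    obtain ⟨p, hp⟩ := Finite.exists_min d
    refine ⟨min (d p) (1 / (2 * α)), lt_min (d0 p) (by positivity), ?_⟩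
    rintro _ ⟨m, k, l, rfl⟩ _ ⟨m', k', l', rfl⟩ h
    simp only [Prod.mk_add_mk, Prod.dist_eq, Real.dist_eq, ne_eq, Prod.mk.injEq, not_and_or] at h ⊢
    rcases h with h | h
    · refine (min_le_left _ _).trans (le_max_of_le_left ((hp (m, m')).trans
        ((hd (m, m') (k - k') fun h' => h ?_).trans_eq ?_)))
      · push_cast at h'
        linarith
      · congr 1
        push_cast
        ring
    · refine (min_le_right _ _).trans (le_max_of_le_right ?_)
      have e : σ m / (2 * α) + l / α - (σ m' / (2 * α) + l' / α) =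
          ((σ m + 2 * l - (σ m' + 2 * l') : ℤ) : ℝ) / (2 * α) := by
        push_cast
        field_simp
      have a1 : σ m + 2 * l - (σ m' + 2 * l') ≠ 0 := fun h' => h (by
        rw [← sub_eq_zero, e, h']; simp)
      rw [e, abs_div, abs_of_pos (a := 2 * α) (by positivity)]
      gcongr
      exact_mod_cast Int.one_le_abs a1
  · obtain ⟨f, hf, h⟩ := nf cg hα hK y (fun m => σ m / (2 * α)) (fun m => by
      rw [Z_eq g hα, Complex.ofReal_eq_zero]
      simp only [y, σ]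
      split_ifs with a1 a2
      · exact ((hx 0).1 m a1).2
      · exact ((hx 1).1 (m - n) (by omega)).2
      · exact Z_half n hg α) A hA
    refine ⟨f, hf, lt_of_le_of_lt ?_ h⟩
    refine le_trans (ENNReal.tsum_le_tsum_comp_of_surjective (f := fun q : _ × ℤ × ℤ =>
      ⟨_, q.1, q.2.1, q.2.2, rfl⟩) ?_ _) (le_of_eq (tsum_congr fun q => ?_))
    · rintro ⟨_, m, k, l, rfl⟩
      exact ⟨(m, k, l), rfl⟩
    · simp only [Prod.mk_add_mk, add_comm, sub_eq_add_neg]

end Pool.Agent.H.MP_bef260_an
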